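import Pool.Agent.Mg.F668d6d.G7a3fde

universe u

open Pool.Agent.MP_668d6d_lc

/-- Which families of convex valuations of a real closed field `R` of infinite transcendence
degree are definable in one dense subfield with real closure `R`. -/
theorem Pool.Agent.Results.MP_668d6d_lc.Families.result
    (R : Type u) [Field R] [LinearOrder R] [IsStrictOrderedRing R] [IsRealClosed R]
    (hR : Cardinal.aleph0 ≤ Algebra.trdeg ℚ R) (S S₀ : Set (ValuationSubring R))
    (hS : ∀ O ∈ S ∪ S₀, (O : Set R).OrdConnected) :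
    List.TFAE
      [Cardinal.mk S ≤ Cardinal.mk R ∧ S₀.Countable,
       ∃ K : Subfield R, Algebra.IsAlgebraic K R ∧ (∀ p q : R, p < q → ∃ x ∈ K, p < x ∧ x < q) ∧
         (∀ O ∈ S, OrDefinable K Set.univ {x : K | (x : R) ∈ O}) ∧
         ∀ O ∈ S₀, OrDefinable K ∅ {x : K | (x : R) ∈ O},
       ∃ K : Subfield R, Algebra.IsAlgebraic K R ∧ (∀ p q : R, p < q → ∃ x ∈ K, p < x ∧ x < q) ∧
         (∀ c : K, 0 < c → ∃ s r : K, c = s ^ 2 + r ^ 2) ∧
         ∀ O ∈ S ∪ S₀, ∃ a b : K, (O ∈ S₀ → ∃ n : ℕ, a = n) ∧ ∀ x : K,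
           ((x : R) ∈ O ↔ ∃ X Y s r : K,
             a * Y ^ 2 = X * (X - 1) * (X - 2) * (X - 3) * (X - 4) * (X - 6) ∧
               X ^ 2 - x ^ 2 = s ^ 2 + r ^ 2) ∧
           ((x : R) ∉ O ↔ ∃ X Y s r : K, Y ≠ 0 ∧
             b * Y ^ 2 = X * (X - 1) * (X - 2) * (X - 3) * (X - 4) * (X - 6) ∧
               x ^ 2 - X ^ 2 = s ^ 2 + r ^ 2)] := by
  tfae_have 1 → 3 := fun h =>
    fin_main (core (conic der) (sext der rig) recS (base half (pure (conic der)) par) intS)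
      hR hS h.1 h.2
  tfae_have 3 → 2 := by
    rintro ⟨K, hA, hD, _, h⟩
    refine ⟨K, hA, hD, fun O hO => ?_, fun O hO => ?_⟩
    · obtain ⟨a, _, _, h1⟩ := h O (Or.inl hO)
      exact dfn K a _ _ (Or.inl (Set.mem_univ a)) fun x => (h1 x).1
    · obtain ⟨a, _, h0, h1⟩ := h O (Or.inr hO)
      exact dfn K a _ _ (Or.inr (h0 hO)) fun x => (h1 x).1
  tfae_have 2 → 1 := by
    rintro ⟨K, _, hD, h1, h0⟩
    refine ⟨(fin_card cnt hD (fun O hO => hS O (Or.inl hO)) _ h1).trans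
      (max_le (Cardinal.aleph0_le_mk R) ?_), Cardinal.le_aleph0_iff_set_countable.1 ?_⟩
    · rw [Cardinal.mk_univ]
      exact Cardinal.mk_subtype_le _
    · simpa using fin_card cnt hD (fun O hO => hS O (Or.inr hO)) _ h0
  tfae_finish
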